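import Pool.Agent.H.MP_1d723d_an.C

namespace Pool.Agent.Results.MP_1d723d_an.No

open MeasureTheory Set Real Metric Matrix

/-- The normalized surface measure on the unit sphere. -/
noncomputable def sig (n : ℕ) : Measure (sphere (0 : EuclideanSpace ℝ (Fin n)) 1) :=
  ((volume : Measure (EuclideanSpace ℝ (Fin n))).toSphere univ)⁻¹ •
    (volume : Measure (EuclideanSpace ℝ (Fin n))).toSphere

/-- The Euclidean length of `A x`. -/
noncomputable def len {n : ℕ} (A : Matrix (Fin n) (Fin n) ℝ) (x : Fin n → ℝ) : ℝ :=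
  √(∑ i, (A *ᵥ x) i ^ 2)

/-- The `H^p` norm. -/
noncomputable def Hp {n : ℕ} (p : ℝ) (A : Matrix (Fin n) (Fin n) ℝ) : ℝ :=
  (∫ u, len A u.1.ofLp ^ p ∂sig n) ^ (1 / p)

/-- The conjectured constant. -/
noncomputable def c (n : ℕ) : ℝ :=
  2 ^ (5 / 4 : ℝ) / √π * (Gamma ((n + 1) / 2) / Gamma (n / 2)) *
    ((n + 2 : ℝ) ^ (1 / 4 : ℝ) / (n : ℝ) ^ (3 / 4 : ℝ))

theorem result : ∃ n : ℕ, 2 < n ∧ ∃ (A : Matrix (Fin n) (Fin n) ℝ) (C : ℝ),
    C < c n * Hp 4 A ∧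
    ∀ B : Matrix (Fin n) (Fin n) ℝ, Hp 1 B ≤ 1 → (Aᵀ * B).trace / n ≤ C :=
  Pool.Agent.H.MP_1d723d_an.main

end Pool.Agent.Results.MP_1d723d_an.No
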